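import Mathlib

set_option autoImplicit false

namespace Pool.Agent.Results.MP_377d0a_co.Four23

abbrev Z := ℤ√3
def PT : Fin 23 → Z × Z × Z := ![(⟨1, 0⟩, ⟨0, -1⟩, ⟨1, -1⟩), (⟨-1, 0⟩, ⟨0, -1⟩, ⟨-1, -1⟩), (⟨0, 0⟩, ⟨0, 0⟩, ⟨-1, 0⟩), (⟨0, -1⟩, ⟨-1, 0⟩, ⟨-1, -3⟩), (⟨0, -1⟩, ⟨1, 0⟩, ⟨1, -3⟩), (⟨0, 1⟩, ⟨-1, 0⟩, ⟨-1, -1⟩), (⟨0, 1⟩, ⟨1, 0⟩, ⟨1, -1⟩), (⟨0, 1⟩, ⟨-2, 0⟩, ⟨-2, 0⟩), (⟨0, -1⟩, ⟨-2, 0⟩, ⟨-2, 0⟩), (⟨0, -1⟩, ⟨-2, 0⟩, ⟨-2, -2⟩), (⟨0, 1⟩, ⟨-2, 0⟩, ⟨-2, 2⟩), (⟨0, 1⟩, ⟨-5, 0⟩, ⟨-5, -1⟩), (⟨0, -1⟩, ⟨-5, 0⟩, ⟨-5, 1⟩), (⟨0, -1⟩, ⟨-5, 0⟩, ⟨-5, -3⟩), (⟨0, 1⟩, ⟨-5, 0⟩, ⟨-5, 3⟩), (⟨0, 0⟩, ⟨0, -1⟩, ⟨-1, -1⟩), (⟨0, 0⟩, ⟨0, -1⟩, ⟨1, -1⟩), (⟨3, 0⟩, ⟨0, -3⟩, ⟨1, -3⟩), (⟨-3, 0⟩, ⟨0, -3⟩, ⟨-5, -3⟩),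 (⟨-3, 0⟩, ⟨0, -3⟩, ⟨-1, -3⟩), (⟨3, 0⟩, ⟨0, -3⟩, ⟨5, -3⟩), (⟨0, -1⟩, ⟨-2, 0⟩, ⟨-2, -1⟩), (⟨0, 1⟩, ⟨-2, 0⟩, ⟨-2, 1⟩)]
def LT : Fin 23 → Z × Z × Z := ![(⟨1, 0⟩, ⟨1, 0⟩, ⟨-1, 0⟩), (⟨0, -1⟩, ⟨-1, 0⟩, ⟨0, 0⟩), (⟨0, -1⟩, ⟨1, 0⟩, ⟨0, 0⟩), (⟨-1, 0⟩, ⟨1, 0⟩, ⟨-1, 0⟩), (⟨-3, 0⟩, ⟨-1, 0⟩, ⟨1, 0⟩), (⟨-4, 0⟩, ⟨-1, 1⟩, ⟨1, 0⟩), (⟨-4, 0⟩, ⟨-1, -1⟩, ⟨1, 0⟩), (⟨-2, 0⟩, ⟨1, -1⟩, ⟨-1, 0⟩), (⟨-2, 0⟩, ⟨1, 1⟩, ⟨-1, 0⟩), (⟨2, 0⟩, ⟨3, 1⟩, ⟨-3, 0⟩), (⟨-2, 0⟩, ⟨0, -1⟩, ⟨0, 0⟩), (⟨-2, 0⟩, ⟨3, -1⟩, ⟨-3, 0⟩), (⟨2, 0⟩, ⟨3, -1⟩, ⟨-3, 0⟩), (⟨-2, 0⟩, ⟨0, 1⟩, ⟨0, 0⟩), (⟨-2, 0⟩, ⟨3, 1⟩, ⟨-3, 0⟩), (⟨4, 0⟩, ⟨3, 1⟩, ⟨-3, 0⟩), (⟨-8, 0⟩, ⟨-3, 1⟩, ⟨3, 0⟩), (⟨4, 0⟩, ⟨3, -1⟩, ⟨-3, 0⟩), (⟨-8, 0⟩, ⟨-3, -1⟩, ⟨3, 0⟩), (⟨-7, 0⟩,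 ⟨-3, -2⟩, ⟨3, 0⟩), (⟨-7, 0⟩, ⟨-3, 2⟩, ⟨3, 0⟩), (⟨-1, 0⟩, ⟨3, 2⟩, ⟨-3, 0⟩), (⟨-1, 0⟩, ⟨3, -2⟩, ⟨-3, 0⟩)]
def J (i : Fin 23) (j : Fin 23) : Prop :=
  (LT j).1 * (PT i).1 + (LT j).2.1 * (PT i).2.1 + (LT j).2.2 * (PT i).2.2 = 0
instance (i : Fin 23) (j : Fin 23) : Decidable (J i j) := inferInstanceAs (Decidable (_ = _))

noncomputable def f : Z →+* ℝ := Zsqrtd.toReal (by norm_num)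
theorem finj : Function.Injective f := Zsqrtd.toReal_injective _ (by
  intro n h
  have : n ≤ 1 ∨ 2 ≤ n := by omega
  have : n ≤ -2 ∨ -1 ≤ n := by omega
  rcases ‹n ≤ 1 ∨ 2 ≤ n› with a | a <;> rcases this with b | b <;>
    first | nlinarith | (interval_cases n <;> omega))
noncomputable def P (i : Fin 23) : ℝ × ℝ := (f (PT i).1 / f (PT i).2.2, f (PT i).2.1 / f (PT i).2.2)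
noncomputable def LL (j : Fin 23) : Set (ℝ × ℝ) :=
  {z | f (LT j).1 * z.1 + f (LT j).2.1 * z.2 = -f (LT j).2.2}

theorem nc {α : Type} [Fintype α] (p : α → Prop) [DecidablePred p] :
    {i | p i}.ncard = (Finset.univ.filter p).card := by
  rw [← Set.ncard_coe_finset]; congr 1; ext; simp

theorem mem (i : Fin 23) (j : Fin 23) : P i ∈ LL j ↔ J i j := by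
  have h : f (PT i).2.2 ≠ 0 := by
    rw [← map_zero f, finj.ne_iff]; revert i; decide +kernel
  rw [J, ← finj.eq_iff]
  simp only [map_add, map_mul, map_zero, P, LL, Set.mem_setOf_eq]
  constructor <;> intro e <;> field_simp at e ⊢ <;> linarith

/-- A geometric configuration `(23_4)` in the real plane. -/
theorem result : ∃ (p : Fin 23 → ℝ × ℝ) (L : Fin 23 → Set (ℝ × ℝ)),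
    Function.Injective p ∧ Function.Injective L ∧
    (∀ j, ∃ a b c : ℝ, (a ≠ 0 ∨ b ≠ 0) ∧ L j = {z | a * z.1 + b * z.2 = c}) ∧
    (∀ i, {j | p i ∈ L j}.ncard = 4) ∧ ∀ j, {i | p i ∈ L j}.ncard = 4 := by
  refine ⟨P, LL, fun i k h => ?_, fun j k h => ?_, fun j => ⟨_, _, _, ?_, rfl⟩, ?_, ?_⟩
  · have : ∀ i k : Fin 23, (∀ j, J i j ↔ J k j) → i = k := by decide +kernel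
    exact this i k fun j => by rw [← mem, ← mem, h]
  · have : ∀ j k : Fin 23, (∀ i, J i j ↔ J i k) → j = k := by decide +kernel
    exact this j k fun i => by rw [← mem, ← mem, h]
  · rw [← map_zero f, finj.ne_iff, finj.ne_iff]; revert j; decide +kernel
  · simp only [mem, nc]; decide +kernel
  · simp only [mem, nc]; decide +kernel

end Pool.Agent.Results.MP_377d0a_co.Four23
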